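import Pool.Agent.H242.GX.Stm

/-!
# GX-NONC (helper92 for helper242)

The oval with support function `1 + cos (3 α) / 20` is not contained in a conic.
-/

open Set Filter Topology
open scoped ContDiff
open Pool.Agent.H242.GX

namespace Pool.Agent.H92.GX

/-- The support function. -/
noncomputable def pp (α : ℝ) : ℝ := 1 + Real.cos (3 * α) / 20

lemma deriv_pp : deriv pp = fun α => -(3 / 20) * Real.sin (3 * α) := by
  funext α
  have h : HasDerivAt pp (0 + (-Real.sin (3 * α) * (3 * 1)) / 20) α := by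
    have h1 : HasDerivAt (fun x : ℝ => 3 * x) (3 * 1) α := (hasDerivAt_id α).const_mul 3
    exact (hasDerivAt_const α (1 : ℝ)).add (h1.cos.div_const 20)
  rw [h.deriv]; ring

lemma deriv2_pp (α : ℝ) : deriv (deriv pp) α = -(9 / 20) * Real.cos (3 * α) := by
  rw [deriv_pp]
  have h1 : HasDerivAt (fun x : ℝ => 3 * x) (3 * 1) α := (hasDerivAt_id α).const_mul 3
  have h : HasDerivAt (fun α => -(3 / 20) * Real.sin (3 * α)) (-(3 / 20) * (Real.cos (3 * α) * (3 * 1))) α :=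
    h1.sin.const_mul _
  rw [h.deriv]; ring

lemma supp_pp : Supp pp := by
  refine ⟨?_, ?_, ?_⟩
  · unfold pp
    exact contDiff_const.add ((Real.contDiff_cos.comp (contDiff_const.mul contDiff_id)).div_const _)
  · intro α
    unfold pp
    have : 3 * (α + 2 * Real.pi) = 3 * α + ((3 : ℕ) : ℝ) * (2 * Real.pi) := by push_cast; ring
    rw [this, Real.cos_add_nat_mul_two_pi]
  · intro α
    rw [deriv2_pp]
    unfold pp
    have := Real.cos_le_one (3 * α)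
    linarith

lemma gam_pp (α : ℝ) (c s : ℝ) (c3 s3 : ℝ) (hc : Real.cos α = c) (hs : Real.sin α = s)
    (hc3 : Real.cos (3 * α) = c3) (hs3 : Real.sin (3 * α) = s3) :
    gam pp α = ⟨(1 + c3 / 20) * s + -(3 / 20) * s3 * c, -((1 + c3 / 20) * c) + -(3 / 20) * s3 * s⟩ := by
  unfold gam
  rw [deriv_pp]
  apply Complex.ext
  · simp only [pp, nu, e, Complex.add_re, Complex.real_smul, Complex.mul_re, Complex.ofReal_re,
      Complex.ofReal_im, hc, hs, hc3, hs3]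
    ring
  · simp only [pp, nu, e, Complex.add_im, Complex.real_smul, Complex.mul_im, Complex.ofReal_re,
      Complex.ofReal_im, hc, hs, hc3, hs3]
    ring

lemma cos3_sin3 (α c s : ℝ) (hc : Real.cos α = c) (hs : Real.sin α = s) :
    Real.cos (3 * α) = 4 * c ^ 3 - 3 * c ∧ Real.sin (3 * α) = 3 * s - 4 * s ^ 3 := by
  subst hc hs
  exact ⟨Real.cos_three_mul α, Real.sin_three_mul α⟩

lemma pt (α c s : ℝ) (hc : Real.cos α = c) (hs : Real.sin α = s) :
    gam pp α = ⟨(1 + (4 * c ^ 3 - 3 * c) / 20) * s + -(3 / 20) * (3 * s - 4 * s ^ 3) * c,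
      -((1 + (4 * c ^ 3 - 3 * c) / 20) * c) + -(3 / 20) * (3 * s - 4 * s ^ 3) * s⟩ :=
  gam_pp α c s _ _ hc hs (cos3_sin3 α c s hc hs).1 (cos3_sin3 α c s hc hs).2

theorem gx_NONC : S_NONC := by
  refine ⟨pp, supp_pp, ?_⟩
  intro q hq hsub
  have h0 := hsub ⟨0, rfl⟩
  have h1 := hsub ⟨Real.pi, rfl⟩
  have h2 := hsub ⟨Real.pi / 2, rfl⟩
  have h3 := hsub ⟨-(Real.pi / 2), rfl⟩
  have h4 := hsub ⟨Real.pi / 3, rfl⟩
  have h5 := hsub ⟨-(Real.pi / 3), rfl⟩
  rw [pt 0 1 0 Real.cos_zero Real.sin_zero] at h0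
  rw [pt Real.pi (-1) 0 Real.cos_pi Real.sin_pi] at h1
  rw [pt (Real.pi / 2) 0 1 Real.cos_pi_div_two Real.sin_pi_div_two] at h2
  rw [pt (-(Real.pi / 2)) 0 (-1) (by rw [Real.cos_neg, Real.cos_pi_div_two])
    (by rw [Real.sin_neg, Real.sin_pi_div_two])] at h3
  rw [pt (Real.pi / 3) (1 / 2) (√3 / 2) Real.cos_pi_div_three Real.sin_pi_div_three] at h4
  rw [pt (-(Real.pi / 3)) (1 / 2) (-(√3 / 2)) (by rw [Real.cos_neg, Real.cos_pi_div_three])
    (by rw [Real.sin_neg, Real.sin_pi_div_three])] at h5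
  simp only [conic, quad, Set.mem_ofPred_eq] at h0 h1 h2 h3 h4 h5
  have hs3 : √3 ^ 2 = 3 := Real.sq_sqrt (by norm_num)
  have hs3' : √3 ^ 3 = 3 * √3 := by rw [pow_succ, hs3]
  have hs0 : √3 ≠ 0 := by positivity
  have hv : (√3 / 2) ^ 3 = 3 * √3 / 8 := by rw [div_pow, hs3']; norm_num
  apply hq
  -- odd part
  have e1 : q 1 * (3 / 20) + q 3 = 0 := by linarith
  have x4 : (1 + (4 * (1 / 2 : ℝ) ^ 3 - 3 * (1 / 2)) / 20) * (√3 / 2) +
      -(3 / 20) * (3 * (√3 / 2) - 4 * (√3 / 2) ^ 3) * (1 / 2) = 19 / 40 * √3 := by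
    rw [hv]; ring
  have y4 : -((1 + (4 * (1 / 2 : ℝ) ^ 3 - 3 * (1 / 2)) / 20) * (1 / 2)) +
      -(3 / 20) * (3 * (√3 / 2) - 4 * (√3 / 2) ^ 3) * (√3 / 2) = -(19 / 40) := by
    have : (3 * (√3 / 2) - 4 * (√3 / 2) ^ 3) = 0 := by rw [hv]; ring
    rw [this]; norm_num
  have x5 : (1 + (4 * (1 / 2 : ℝ) ^ 3 - 3 * (1 / 2)) / 20) * (-(√3 / 2)) +
      -(3 / 20) * (3 * (-(√3 / 2)) - 4 * (-(√3 / 2)) ^ 3) * (1 / 2) = -(19 / 40 * √3) := by
    rw [← x4]; ring
  have y5 : -((1 + (4 * (1 / 2 : ℝ) ^ 3 - 3 * (1 / 2)) / 20) * (1 / 2)) +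
      -(3 / 20) * (3 * (-(√3 / 2)) - 4 * (-(√3 / 2)) ^ 3) * (-(√3 / 2)) = -(19 / 40) := by
    rw [← y4]; ring
  rw [x4, y4] at h4
  rw [x5, y5] at h5
  have e2 : √3 * (q 3 - 19 / 40 * q 1) = 0 := by linarith
  have e3 : q 3 - 19 / 40 * q 1 = 0 := by
    rcases mul_eq_zero.1 e2 with h | h
    · exact absurd h hs0
    · exact h
  have q1 : q 1 = 0 := by linarith
  have q3 : q 3 = 0 := by linarith
  have e4 : q 0 * (361 / 1600 * 3) + q 2 * (361 / 1600) - q 4 * (19 / 40) + q 5 = 0 := by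
    have : (19 / 40 * √3) ^ 2 = 361 / 1600 * 3 := by rw [mul_pow, hs3]; norm_num
    rw [this, q1, q3] at h4
    linarith
  have q2 : q 2 = 0 := by
    rw [q1, q3] at h0 h1 h2
    linarith
  have q4 : q 4 = 0 := by
    rw [q1, q3, q2] at h0 h1
    linarith
  have q5 : q 5 = 0 := by
    rw [q1, q3, q2, q4] at h0
    linarith
  have q0 : q 0 = 0 := by
    rw [q1, q3, q2, q4, q5] at h2
    linarith
  funext i
  fin_cases i
  · exact q0
  · exact q1
  · exact q2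
  · exact q3
  · exact q4
  · exact q5

end Pool.Agent.H92.GX
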